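import Mathlib

set_option autoImplicit false

open MeasureTheory Filter

namespace Pool.Agent.Results.MP_33ac70_nt.DivergenceFails

/-- The sup norm of a tuple of naturals. -/
def supNorm {k : ℕ} (a : Fin k → ℕ) : ℕ := Finset.univ.sup a

/-- The set of solutions `(a₁,…,a_k,b)` of `|∑ a_j^θ - b| ≤ ρ(‖a‖)/‖a‖^k` in positive integers. -/
def Solutions (k : ℕ) (ρ : ℕ → ℝ) (θ : ℝ) : Set ((Fin k → ℕ) × ℕ) :=
  {p | (∀ j, 1 ≤ p.1 j) ∧ 1 ≤ p.2 ∧
    |(∑ j, (p.1 j : ℝ) ^ θ) - (p.2 : ℝ)| ≤ ρ (supNorm p.1) / (supNorm p.1 : ℝ) ^ k}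

/-- `m` lies in the `i`-th block. -/
def InBlock (δ : ℝ) (i m : ℕ) : Prop :=
  2 ^ i ≤ m ∧ (m : ℝ) ≤ (2 : ℝ) ^ i + ((2 : ℝ) ^ i) ^ (1 - δ)

open Classical in
/-- The function `ρ`: equal to `m^δ` on the blocks, `0` elsewhere. -/
noncomputable def rho (δ : ℝ) (m : ℕ) : ℝ := if ∃ i, InBlock δ i m then (m : ℝ) ^ δ else 0

lemma rho_nonneg (δ : ℝ) (m : ℕ) : 0 ≤ rho δ m := by
  unfold rho
  split_ifs
  · positivity
  · exact le_rfl

lemma rho_le (δ : ℝ) (m : ℕ) : rho δ m ≤ (m : ℝ) ^ δ := by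
  unfold rho
  split_ifs
  · exact le_rfl
  · positivity

/-- measure of the set of `θ` with `exp(θL)` within `η` of `b`. -/
lemma vol_one (L η : ℝ) (hL : 0 < L) (hη0 : 0 ≤ η) (hη : η ≤ 1 / 2) (b : ℕ) (hb : 1 ≤ b) :
    volume {θ : ℝ | |Real.exp (θ * L) - b| ≤ η} ≤ ENNReal.ofReal (4 * η / L * (b : ℝ)⁻¹) := by
  have hb' : (1 : ℝ) ≤ b := by exact_mod_cast hb
  have h1 : {θ : ℝ | |Real.exp (θ * L) - b| ≤ η} ⊆
      Set.Icc (Real.log (b - η) / L) (Real.log (b + η) / L) := by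
    intro θ hθ
    rw [Set.mem_ofPred_eq, abs_le] at hθ
    constructor
    · rw [div_le_iff₀ hL]
      rw [← Real.log_exp (θ * L)]
      apply Real.log_le_log <;> linarith
    · rw [le_div_iff₀ hL]
      rw [← Real.log_exp (θ * L)]
      apply Real.log_le_log (Real.exp_pos _)
      linarith
  refine (measure_mono h1).trans ?_
  rw [Real.volume_Icc]
  apply ENNReal.ofReal_le_ofReal
  have h2 : Real.log (b + η) - Real.log (b - η) ≤ 4 * η / b := by
    rw [← Real.log_div (by linarith) (by linarith)]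
    have h3 := Real.log_le_sub_one_of_pos (x := ((b : ℝ) + η) / (b - η)) (by
      apply div_pos <;> linarith)
    refine h3.trans ?_
    have h4 : ((b : ℝ) + η) / (b - η) - 1 = 2 * η / (b - η) := by
      have : (b : ℝ) - η ≠ 0 := by linarith
      field_simp
      ring
    rw [h4, div_le_div_iff₀ (by linarith) (by linarith)]
    nlinarith
  calc Real.log (b + η) / L - Real.log (b - η) / L = (Real.log (b + η) - Real.log (b - η)) / L := by
        ring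
    _ ≤ (4 * η / b) / L := by gcongr
    _ = 4 * η / L * (b : ℝ)⁻¹ := by field_simp

/-- measure of the set of `θ < 1` with `2^(iθ)` within `η` of a positive integer. -/
lemma vol_all (i : ℕ) (hi : 1 ≤ i) (η : ℝ) (hη0 : 0 ≤ η) (hη : η ≤ 1 / 2) :
    volume {θ : ℝ | θ < 1 ∧ ∃ b : ℕ, 1 ≤ b ∧ |((2 : ℝ) ^ i) ^ θ - b| ≤ η} ≤
      ENNReal.ofReal (12 * η) := by
  set L : ℝ := i * Real.log 2 with hLdef
  have hlog2 : (1 : ℝ) / 2 < Real.log 2 := by
    have := Real.log_two_gt_d9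
    linarith
  have hi' : (1 : ℝ) ≤ i := by exact_mod_cast hi
  have hL : 1 / 2 < L := by nlinarith
  have hpow : ∀ θ : ℝ, ((2 : ℝ) ^ i) ^ θ = Real.exp (θ * L) := by
    intro θ
    rw [Real.rpow_def_of_pos (by positivity), Real.log_pow, hLdef]
    ring_nf
  have hNexp : (2 : ℝ) ^ i = Real.exp L := by
    have := hpow 1
    rw [Real.rpow_one, one_mul] at this
    exact this
  have hsub : {θ : ℝ | θ < 1 ∧ ∃ b : ℕ, 1 ≤ b ∧ |((2 : ℝ) ^ i) ^ θ - b| ≤ η} ⊆
      ⋃ b ∈ Finset.Icc (1 : ℕ) (2 ^ i : ℕ), {θ : ℝ | |Real.exp (θ * L) - (b : ℝ)| ≤ η} := by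
    rintro θ ⟨hθ, b, hb, hbη⟩
    rw [hpow] at hbη
    simp only [Set.mem_iUnion, Finset.mem_Icc, Set.mem_ofPred_eq]
    refine ⟨b, ⟨hb, ?_⟩, hbη⟩
    rw [abs_le] at hbη
    have h1 : Real.exp (θ * L) ≤ (2 : ℝ) ^ i := by
      rw [hNexp]
      apply Real.exp_le_exp.mpr
      nlinarith
    have h2 : (b : ℝ) < (2 : ℝ) ^ i + 1 := by linarith [hbη.1]
    have h3 : b < 2 ^ i + 1 := by exact_mod_cast h2
    omega
  refine (measure_mono hsub).trans ((measure_biUnion_finset_le _ _).trans ?_)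
  have hsum : ∑ b ∈ Finset.Icc (1 : ℕ) (2 ^ i : ℕ),
        volume {θ : ℝ | |Real.exp (θ * L) - (b : ℝ)| ≤ η} ≤
      ∑ b ∈ Finset.Icc (1 : ℕ) (2 ^ i : ℕ), ENNReal.ofReal (4 * η / L * (b : ℝ)⁻¹) := by
    apply Finset.sum_le_sum
    intro b hb
    rw [Finset.mem_Icc] at hb
    exact vol_one L η (by linarith) hη0 hη b hb.1
  refine hsum.trans ?_
  rw [← ENNReal.ofReal_sum_of_nonneg (fun b _ => by positivity)]
  apply ENNReal.ofReal_le_ofReal
  rw [← Finset.mul_sum]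
  have hharm : ∑ b ∈ Finset.Icc (1 : ℕ) (2 ^ i : ℕ), (b : ℝ)⁻¹ ≤ 1 + L := by
    have h1 := harmonic_le_one_add_log (2 ^ i)
    rw [harmonic_eq_sum_Icc] at h1
    push_cast at h1
    rw [Real.log_pow] at h1
    simpa [hLdef] using h1
  calc 4 * η / L * ∑ b ∈ Finset.Icc (1 : ℕ) (2 ^ i : ℕ), (b : ℝ)⁻¹ ≤ 4 * η / L * (1 + L) := by
        gcongr
    _ ≤ 12 * η := by
      rw [div_mul_eq_mul_div, div_le_iff₀ (by linarith)]
      nlinarith

/-- The bound `η_i`. -/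
noncomputable def eta (δ τ : ℝ) (i : ℕ) : ℝ := ((2 : ℝ) ^ (δ - 1)) ^ i + ((2 : ℝ) ^ (τ - δ)) ^ i

lemma eta_summable (δ τ : ℝ) (hδ : δ < 1) (hτ : τ < δ) : Summable (eta δ τ) := by
  unfold eta
  apply Summable.add
  · apply summable_geometric_of_lt_one (by positivity)
    exact Real.rpow_lt_one_of_one_lt_of_neg (by norm_num) (by linarith)
  · apply summable_geometric_of_lt_one (by positivity)
    exact Real.rpow_lt_one_of_one_lt_of_neg (by norm_num) (by linarith)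

lemma eta_nonneg (δ τ : ℝ) (i : ℕ) : 0 ≤ eta δ τ i := by unfold eta; positivity

/-- A solution in block `i` makes `2^{iθ}` close to an integer. -/
lemma near (δ τ θ : ℝ) (hδ1 : δ < 1) (hτ : τ < δ) (h0 : 0 < θ) (hθ : θ ≤ τ) (i n b : ℕ)
    (hn : InBlock δ i n) (hnb : |(n : ℝ) ^ θ - b| ≤ (n : ℝ) ^ δ / n) :
    |((2 : ℝ) ^ i) ^ θ - b| ≤ eta δ τ i := by
  obtain ⟨h1, h2⟩ := hn
  set N : ℝ := (2 : ℝ) ^ i with hN
  have hN1 : (1 : ℝ) ≤ N := one_le_pow₀ (by norm_num)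
  have hNn : N ≤ n := by rw [hN]; exact_mod_cast h1
  have hn0 : (0 : ℝ) < n := by linarith
  -- first part: n^δ / n ≤ N^(δ-1)
  have e1 : (n : ℝ) ^ δ / n ≤ N ^ (δ - 1) := by
    rw [← Real.rpow_sub_one (by positivity)]
    exact Real.rpow_le_rpow_of_nonpos (by linarith) hNn (by linarith)
  -- second part: n^θ - N^θ ≤ N^(τ-δ)
  have e2 : (n : ℝ) ^ θ - N ^ θ ≤ N ^ (τ - δ) := by
    have hx : (n : ℝ) = N * (1 + (n - N) / N) := by field_simp; ring
    have hy0 : 0 ≤ (n - N) / N := div_nonneg (by linarith) (by linarith)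
    have h3 : (n : ℝ) ^ θ = N ^ θ * (1 + (n - N) / N) ^ θ := by
      conv_lhs => rw [hx]
      rw [Real.mul_rpow (by linarith) (by linarith)]
    have h4 : (1 + (n - N) / N) ^ θ ≤ 1 + (n - N) / N := by
      calc (1 + (n - N) / N) ^ θ ≤ (1 + (n - N) / N) ^ (1 : ℝ) :=
            Real.rpow_le_rpow_of_exponent_le (by linarith) (by linarith)
        _ = _ := Real.rpow_one _
    have h5 : (n - N) / N ≤ N ^ (-δ) := by
      rw [div_le_iff₀ (by linarith), ← Real.rpow_add_one (by linarith)]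
      have : -δ + 1 = 1 - δ := by ring
      rw [this]
      linarith
    have h6 : N ^ θ ≤ N ^ τ := Real.rpow_le_rpow_of_exponent_le hN1 hθ
    have h7 : N ^ τ * N ^ (-δ) = N ^ (τ - δ) := by
      rw [← Real.rpow_add (by linarith)]
      ring_nf
    have h8 : (0 : ℝ) ≤ N ^ θ := by positivity
    calc (n : ℝ) ^ θ - N ^ θ = N ^ θ * ((1 + (n - N) / N) ^ θ - 1) := by rw [h3]; ring
      _ ≤ N ^ θ * ((n - N) / N) := by
          apply mul_le_mul_of_nonneg_left _ h8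
          linarith
      _ ≤ N ^ τ * N ^ (-δ) := by
          apply mul_le_mul h6 h5 hy0 (by positivity)
      _ = _ := h7
  have e3 : N ^ θ ≤ (n : ℝ) ^ θ := Real.rpow_le_rpow (by linarith) hNn h0.le
  have e4 : N ^ (δ - 1) = ((2 : ℝ) ^ (δ - 1)) ^ i := by
    rw [hN, ← Real.rpow_natCast, ← Real.rpow_natCast, ← Real.rpow_mul (by norm_num),
      ← Real.rpow_mul (by norm_num), mul_comm]
  have e5 : N ^ (τ - δ) = ((2 : ℝ) ^ (τ - δ)) ^ i := by
    rw [hN, ← Real.rpow_natCast, ← Real.rpow_natCast, ← Real.rpow_mul (by norm_num),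
      ← Real.rpow_mul (by norm_num), mul_comm]
  unfold eta
  rw [← e4, ← e5]
  rw [abs_le] at hnb ⊢
  constructor <;> [linarith [hnb.1]; linarith [hnb.2, Real.rpow_nonneg (show (0:ℝ) ≤ N by linarith) (τ - δ)]]

/-- Almost every `θ ≤ τ` has only finitely many `i` with `2^{iθ}` close to an integer. -/
lemma ae_near (δ τ : ℝ) (hδ1 : δ < 1) (hτ : τ < δ) :
    ∀ᵐ θ : ℝ, θ < 1 → ∀ᶠ i : ℕ in atTop, ¬ ∃ b : ℕ, 1 ≤ b ∧ |((2 : ℝ) ^ i) ^ θ - b| ≤ eta δ τ i := by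
  have hsum := eta_summable δ τ hδ1 hτ
  have hlim := hsum.tendsto_atTop_zero
  have hev : ∀ᶠ i in atTop, eta δ τ i ≤ 1 / 2 := by
    have := hlim.eventually (ge_mem_nhds (show (0 : ℝ) < 1 / 2 by norm_num))
    exact this
  obtain ⟨I, hI⟩ := eventually_atTop.mp hev
  set I' := max I 1 with hI'
  have hmeas : volume {θ : ℝ | ∃ᶠ i : ℕ in atTop,
      θ < 1 ∧ (∃ b : ℕ, 1 ≤ b ∧ |((2 : ℝ) ^ (i + I')) ^ θ - b| ≤ eta δ τ (i + I'))} = 0 := by
    apply measure_setOfPred_frequently_eq_zero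
    have hle : ∀ i : ℕ, volume {θ : ℝ | θ < 1 ∧
        (∃ b : ℕ, 1 ≤ b ∧ |((2 : ℝ) ^ (i + I')) ^ θ - b| ≤ eta δ τ (i + I'))} ≤
        ENNReal.ofReal (12 * eta δ τ (i + I')) := fun i =>
      vol_all (i + I') (by omega) _ (eta_nonneg _ _ _) (hI _ (by omega))
    have hs2 : Summable (fun i => 12 * eta δ τ (i + I')) :=
      ((summable_nat_add_iff I').mpr hsum).mul_left 12
    refine ne_top_of_le_ne_top ?_ (ENNReal.tsum_le_tsum hle)
    exact hs2.tsum_ofReal_ne_top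
  rw [ae_iff]
  refine measure_mono_null ?_ hmeas
  intro θ hθ
  rw [Set.mem_ofPred_eq] at hθ ⊢
  push Not at hθ
  obtain ⟨hθ1, hfr⟩ := hθ
  rw [frequently_atTop]
  intro a
  rw [frequently_atTop] at hfr
  obtain ⟨j, hj, b, hb⟩ := hfr (a + I')
  refine ⟨j - I', by omega, hθ1, b, ?_⟩
  have : j - I' + I' = j := by omega
  rw [this]
  exact hb

lemma not_summable (δ : ℝ) (h1 : δ < 1) (h0 : 0 < δ) :
    ¬ Summable (fun m : ℕ => rho δ m / m) := by
  intro hs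
  rw [summable_iff_vanishing_norm] at hs
  obtain ⟨s, hs⟩ := hs (1 / 2) (by norm_num)
  obtain ⟨i, hi⟩ : ∃ i : ℕ, ∀ m ∈ s, m < 2 ^ i := by
    obtain ⟨M, hM⟩ := s.bddAbove
    refine ⟨M, fun m hm => ?_⟩
    exact lt_of_le_of_lt (hM hm) Nat.lt_two_pow_self
  set K := ⌊((2 : ℝ) ^ i) ^ (1 - δ)⌋₊ with hK
  have hpos : (0 : ℝ) < (2 : ℝ) ^ i := by positivity
  have hone : (1 : ℝ) ≤ (2 : ℝ) ^ i := one_le_pow₀ (by norm_num)
  have hKle : (K : ℝ) ≤ ((2 : ℝ) ^ i) ^ (1 - δ) := Nat.floor_le (by positivity)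
  have hKge : ((2 : ℝ) ^ i) ^ (1 - δ) < K + 1 := Nat.lt_floor_add_one _
  have hKN : ((2 : ℝ) ^ i) ^ (1 - δ) ≤ (2 : ℝ) ^ i := by
    calc ((2 : ℝ) ^ i) ^ (1 - δ) ≤ ((2 : ℝ) ^ i) ^ (1 : ℝ) :=
          Real.rpow_le_rpow_of_exponent_le hone (by linarith)
      _ = _ := Real.rpow_one _
  set t := (Finset.range (K + 1)).image (fun j => 2 ^ i + j) with ht
  have hdisj : Disjoint t s := by
    rw [Finset.disjoint_left]
    intro m hm hms
    rw [ht, Finset.mem_image] at hm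
    obtain ⟨j, _, rfl⟩ := hm
    have := hi _ hms
    omega
  have hlt := hs t hdisj
  have hterm : ∀ m ∈ t, (2 * (2 : ℝ) ^ i) ^ (δ - 1) ≤ rho δ m / m := by
    intro m hm
    rw [ht, Finset.mem_image] at hm
    obtain ⟨j, hj, rfl⟩ := hm
    rw [Finset.mem_range] at hj
    have hj' : (j : ℝ) ≤ K := by exact_mod_cast Nat.lt_succ_iff.mp hj
    have hin : InBlock δ i (2 ^ i + j) := by
      refine ⟨by omega, ?_⟩
      push_cast
      linarith
    have hm0 : (0 : ℝ) < ((2 ^ i + j : ℕ) : ℝ) := by positivity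
    have hmle : ((2 ^ i + j : ℕ) : ℝ) ≤ 2 * (2 : ℝ) ^ i := by
      push_cast
      linarith
    unfold rho
    rw [if_pos ⟨i, hin⟩, ← Real.rpow_sub_one (by positivity)]
    exact Real.rpow_le_rpow_of_nonpos hm0 hmle (by linarith)
  have hcard : t.card = K + 1 := by
    rw [ht, Finset.card_image_of_injective _ (fun a b h => by simpa using h), Finset.card_range]
  have hsum : (K + 1 : ℝ) * (2 * (2 : ℝ) ^ i) ^ (δ - 1) ≤ ∑ m ∈ t, rho δ m / m := by
    have := Finset.card_nsmul_le_sum t _ _ hterm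
    rw [hcard, nsmul_eq_mul] at this
    push_cast at this
    exact this
  have hbig : 1 / 2 ≤ (K + 1 : ℝ) * (2 * (2 : ℝ) ^ i) ^ (δ - 1) := by
    rw [Real.mul_rpow (by norm_num) (by positivity)]
    have e1 : (1 : ℝ) / 2 ≤ 2 ^ (δ - 1) := by
      have : (2 : ℝ) ^ (-1 : ℝ) ≤ 2 ^ (δ - 1) :=
        Real.rpow_le_rpow_of_exponent_le (by norm_num) (by linarith)
      rw [Real.rpow_neg_one] at this
      linarith
    have e2 : (1 : ℝ) ≤ (K + 1) * ((2 : ℝ) ^ i) ^ (δ - 1) := by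
      have e3 : ((2 : ℝ) ^ i) ^ (1 - δ) * ((2 : ℝ) ^ i) ^ (δ - 1) = 1 := by
        rw [← Real.rpow_add hpos]
        norm_num
      calc (1 : ℝ) = ((2 : ℝ) ^ i) ^ (1 - δ) * ((2 : ℝ) ^ i) ^ (δ - 1) := e3.symm
        _ ≤ _ := by
          apply mul_le_mul_of_nonneg_right hKge.le (by positivity)
    have e4 : (0 : ℝ) < 2 ^ (δ - 1) := by positivity
    nlinarith
  have hnn : 0 ≤ ∑ m ∈ t, rho δ m / m :=
    Finset.sum_nonneg (fun m _ => div_nonneg (rho_nonneg δ m) (by positivity))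
  rw [Real.norm_of_nonneg hnn] at hlt
  linarith

/-- For almost every `θ` no `n ≥ 2` has `n^θ` integral. -/
lemma ae_ne : ∀ᵐ θ : ℝ, ∀ n b : ℕ, 2 ≤ n → (n : ℝ) ^ θ ≠ b := by
  rw [ae_all_iff]
  intro n
  rw [ae_all_iff]
  intro b
  by_cases hn : 2 ≤ n
  · rw [ae_iff]
    refine measure_mono_null (t := {Real.log b / Real.log n}) ?_ (measure_singleton _)
    intro θ hθ
    rw [Set.mem_ofPred_eq] at hθ
    push Not at hθ
    obtain ⟨_, hθ⟩ := hθ
    have hn' : (2 : ℝ) ≤ n := by exact_mod_cast hn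
    have hlog : 0 < Real.log n := Real.log_pos (by linarith)
    rw [Set.mem_singleton_iff, ← hθ, Real.log_rpow (by linarith)]
    field_simp
  · exact Eventually.of_forall (fun θ h => absurd h hn)

/-- For every `τ < δ`, almost every `θ ∈ (0,τ]` has finitely many solutions. -/
lemma ae_finite_aux (δ τ : ℝ) (h1 : δ < 1) (hτ : τ < δ) :
    ∀ᵐ θ : ℝ, 0 < θ → θ ≤ τ → (Solutions 1 (rho δ) θ).Finite := by
  filter_upwards [ae_near δ τ h1 hτ, ae_ne] with θ hθ hne hθ0 hθτ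
  have hev := hθ (by linarith)
  obtain ⟨I, hI⟩ := eventually_atTop.mp hev
  -- all solutions have a < 2^(I+1), b bounded
  have hsub : Solutions 1 (rho δ) θ ⊆
      {a : Fin 1 → ℕ | ∀ j, a j ∈ {m : ℕ | m < 2 ^ (I + 1)}} ×ˢ {b : ℕ | b < 2 ^ (I + 1) + 2} := by
    rintro ⟨a, b⟩ ⟨ha, hb, hab⟩
    simp only at ha hb hab
    have hsn : supNorm a = a 0 := by simp [supNorm]
    rw [hsn, Fin.sum_univ_one, pow_one] at hab
    have ha0 := ha 0
    have ha0' : (1 : ℝ) ≤ (a 0 : ℝ) := by exact_mod_cast ha0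
    have hlt : a 0 < 2 ^ (I + 1) := by
      by_contra hcon
      push Not at hcon
      by_cases hblk : ∃ i, InBlock δ i (a 0)
      · obtain ⟨i, hi⟩ := hblk
        have hrho : rho δ (a 0) = (a 0 : ℝ) ^ δ := by
          unfold rho
          rw [if_pos ⟨i, hi⟩]
        rw [hrho] at hab
        have hnear := near δ τ θ h1 hτ hθ0 hθτ i (a 0) b hi hab
        have hiI : I ≤ i := by
          by_contra hcon2
          push Not at hcon2
          have h2 := hi.2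
          have hpos : (1 : ℝ) ≤ (2 : ℝ) ^ i := one_le_pow₀ (by norm_num)
          have h3 : ((2 : ℝ) ^ i) ^ (1 - δ) ≤ (2 : ℝ) ^ i := by
            calc ((2 : ℝ) ^ i) ^ (1 - δ) ≤ ((2 : ℝ) ^ i) ^ (1 : ℝ) :=
                  Real.rpow_le_rpow_of_exponent_le hpos (by linarith)
              _ = _ := Real.rpow_one _
          have h4 : (a 0 : ℝ) ≤ (2 : ℝ) ^ (i + 1) := by rw [pow_succ]; linarith
          have h5 : a 0 ≤ 2 ^ (i + 1) := by exact_mod_cast h4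
          have h6 : 2 ^ (i + 1) < 2 ^ (I + 1) := Nat.pow_lt_pow_right (by norm_num) (by omega)
          omega
        exact hI i hiI ⟨b, hb, hnear⟩
      · have hrho : rho δ (a 0) = 0 := by
          unfold rho
          rw [if_neg hblk]
        rw [hrho, zero_div] at hab
        have h7 : (a 0 : ℝ) ^ θ = b := by
          have := abs_eq_zero.mp (le_antisymm hab (abs_nonneg _))
          linarith
        have h8 : 2 ≤ 2 ^ (I + 1) := by
          calc 2 = 2 ^ 1 := rfl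
            _ ≤ 2 ^ (I + 1) := Nat.pow_le_pow_right (by norm_num) (by omega)
        exact hne (a 0) b (by omega) h7
    refine ⟨fun j => ?_, ?_⟩
    · have : j = 0 := Subsingleton.elim _ _
      rw [this]; exact hlt
    · change b < 2 ^ (I + 1) + 2
      have h9 : rho δ (a 0) / (a 0 : ℝ) ≤ 1 := by
        rw [div_le_one (by linarith)]
        calc rho δ (a 0) ≤ (a 0 : ℝ) ^ δ := rho_le _ _
          _ ≤ (a 0 : ℝ) ^ (1 : ℝ) := Real.rpow_le_rpow_of_exponent_le ha0' h1.le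
          _ = a 0 := Real.rpow_one _
      have h10 : (a 0 : ℝ) ^ θ ≤ a 0 := by
        calc (a 0 : ℝ) ^ θ ≤ (a 0 : ℝ) ^ (1 : ℝ) :=
              Real.rpow_le_rpow_of_exponent_le ha0' (by linarith)
          _ = a 0 := Real.rpow_one _
      have h11 : (b : ℝ) ≤ a 0 + 1 := by
        have := (abs_le.mp (hab.trans h9)).1
        linarith
      have h12 : b ≤ a 0 + 1 := by exact_mod_cast h11
      omega
  exact Set.Finite.subset
    ((Set.Finite.pi' (fun _ => Set.finite_lt_nat (2 ^ (I + 1)))).prod (Set.finite_lt_nat _)) hsub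

/-- The divergence statement fails for `k = 1`: for every `0 < δ < 1` there is `ρ` with
`0 ≤ ρ(m) ≤ m^δ`, `∑ ρ(m)/m = ∞`, such that for almost every `θ ∈ (0,δ)` there are only finitely
many solutions. -/
theorem result : ∀ δ : ℝ, 0 < δ → δ < 1 → ∃ ρ : ℕ → ℝ, (∀ m, 0 ≤ ρ m ∧ ρ m ≤ (m : ℝ) ^ δ) ∧
    ¬ Summable (fun m : ℕ => ρ m / m) ∧
    ∀ᵐ θ : ℝ, θ ∈ Set.Ioo 0 δ → (Solutions 1 ρ θ).Finite := by
  intro δ h0 h1
  refine ⟨rho δ, fun m => ⟨rho_nonneg δ m, rho_le δ m⟩, not_summable δ h1 h0, ?_⟩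
  have h2 : ∀ᵐ θ : ℝ, ∀ n : ℕ, 0 < θ → θ ≤ δ - 1 / (n + 1) → (Solutions 1 (rho δ) θ).Finite := by
    rw [ae_all_iff]
    intro n
    exact ae_finite_aux δ _ h1 (by
      have : (0 : ℝ) < 1 / (n + 1) := by positivity
      linarith)
  filter_upwards [h2] with θ hθ hmem
  obtain ⟨n, hn⟩ := exists_nat_one_div_lt (show 0 < δ - θ by linarith [hmem.2])
  exact hθ n hmem.1 (by linarith)

end Pool.Agent.Results.MP_33ac70_nt.DivergenceFails
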